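import Pool.Agent.H39H.RelH
import Pool.Agent.H49Bk.Bk4
import Pool.Agent.H63LB.Dlt

/-!
# Definability of the closed form of the resolvent, without any regime
-/

set_option autoImplicit false

namespace Pool.Agent.H39H

open Finset Polynomial Pool.Agent.Grz Pool.Agent.GAvg Pool.Agent.PTr Pool.Agent.MTr
open Pool.Agent.LPC Pool.Agent.ECD Pool.Agent.LinU

variable {n m : ℕ} {T : ℕ → (Fin n → ℕ) → ℕ}

theorem DltH_ball {b : (Fin m → ℕ) → ℕ} (hb : DFun m b) {P : ℕ → (Fin m → ℕ) → Prop}
    (hP : Delta0 (m + 1) (fun w => P (w 0) (fun i => w i.succ))) :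
    Delta0 m (fun v => ∀ x, x < b v → P x v) := by
  have h := Delta0.ballFun hb (P := fun x v => x < b v → P x v)
    ((Delta0.ltFun (DFun.proj 0) hb.weak).imp hP)
  refine h.of_iff fun v => ?_
  exact ⟨fun h x _ hx => h x hx, fun h x hx => h x hx.le hx⟩

theorem DltH_bex {b : (Fin m → ℕ) → ℕ} (hb : DFun m b) {P : ℕ → (Fin m → ℕ) → Prop}
    (hP : Delta0 (m + 1) (fun w => P (w 0) (fun i => w i.succ))) :
    Delta0 m (fun v => ∃ x, x < b v ∧ P x v) := by
  have h := Delta0.bexFun hb (P := fun x v => x < b v ∧ P x v)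
    ((Delta0.ltFun (DFun.proj 0) hb.weak).and hP)
  refine h.of_iff fun v => ?_
  exact ⟨fun ⟨x, hx, h⟩ => ⟨x, hx.le, hx, h⟩, fun ⟨x, _, hx, h⟩ => ⟨x, hx, h⟩⟩

theorem it_def (hT : DFun (n + 1) (fun w => T (w 0) (fun i => w i.succ)))
    {τ : Fin n → (Fin m → ℕ) → ℕ} (hτ : ∀ i, DFun m (τ i))
    {q N e z s B : (Fin m → ℕ) → ℕ} (hq : DFun m q) (hN : DFun m N) (he : DFun m e)
    (hz : DFun m z) (hs : DFun m s) (hB : DFun m B) (h2 : ∀ v, 2 ≤ q v)
    (hqN : ∀ v, q v ^ N v ≤ B v) (hel : ∀ v, e v ≤ lg (N v) + 3)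
    (hTb : ∀ v z, z < q v ^ N v → T z (fun i => τ i v) < q v ^ N v)
    (hlin : ∀ v, ∃ A : Module.End (ZMod (q v)) (Fin (N v) → ZMod (q v)), ∀ z, z < q v ^ N v →
      vecOf (q v) (N v) (T z (fun i => τ i v)) = A (vecOf (q v) (N v) z)) :
    DFun m (fun v => (fun y => T y (fun i => τ i v))^[min (s v) (e v)]
      (z v % q v ^ N v)) := by
  have hQ : DFun m (fun v => q v ^ N v) := dfun_powLe hq hN hB hqN
  have hQ0 : ∀ v, 0 < q v ^ N v := fun v => pow_pos (by have := h2 v; omega) _
  have hT' : DFun (m + 1) (fun w => T (w 0) (fun k => τ k (fun i => w i.succ))) :=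
    DFun.app hT (DFun.proj 0) fun k => (hτ k).weak
  exact H49Bk.pow_small (T := fun y v => T y (fun k => τ k v)) hq hN hB
    (DFun.modPos hz hQ hQ0) (hs.min he) hT' h2 hqN (fun v => (min_le_right _ _).trans (hel v))
    hTb hlin fun v => Nat.mod_lt _ (hQ0 v)

theorem uH_def (hT : DFun (n + 1) (fun w => T (w 0) (fun i => w i.succ)))
    {τ : Fin n → (Fin m → ℕ) → ℕ} (hτ : ∀ i, DFun m (τ i))
    {q N e g z s c B : (Fin m → ℕ) → ℕ} (hq : DFun m q) (hN : DFun m N) (he : DFun m e)
    (hg : DFun m g) (hz : DFun m z) (hs : DFun m s) (hc : DFun m c) (hB : DFun m B)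
    (h2 : ∀ v, 2 ≤ q v) (hqN : ∀ v, q v ^ N v ≤ B v) (hel : ∀ v, e v ≤ lg (N v) + 3)
    (hTb : ∀ v z, z < q v ^ N v → T z (fun i => τ i v) < q v ^ N v)
    (hlin : ∀ v, ∃ A : Module.End (ZMod (q v)) (Fin (N v) → ZMod (q v)), ∀ z, z < q v ^ N v →
      vecOf (q v) (N v) (T z (fun i => τ i v)) = A (vecOf (q v) (N v) z)) :
    DFun m (fun v => uH (q v) (e v) (fun y => T y (fun i => τ i v)) (g v)
      (z v % q v ^ N v) (min (s v) (e v)) (c v)) := by
  have h1 := dfun_dg hq (it_def hT hτ hq hN he hz hs hB h2 hqN hel hTb hlin) hc h2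
  have hse : DFun m (fun v => min (s v) (e v)) := hs.min he
  have hin : DFun (m + 1) (fun w => dg (q fun i => w i.succ) (g fun i => w i.succ)
      (e (fun i => w i.succ) - min (s fun i => w i.succ) (e fun i => w i.succ) + w 0) *
      dg (q fun i => w i.succ) ((fun y => T y (fun k => τ k fun i => w i.succ))^[min (w 0)
        (e fun i => w i.succ)] ((z fun i => w i.succ) % (q fun i => w i.succ) ^
        (N fun i => w i.succ))) (c fun i => w i.succ)) := by
    refine DFun.mul (dfun_dg hq.weak hg.weak ((he.weak.sub hse.weak).add (DFun.proj 0))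
      fun w => h2 _) (dfun_dg hq.weak ?_ hc.weak fun w => h2 _)
    exact it_def (m := m + 1) hT (τ := fun k w => τ k fun i => w i.succ)
      (fun k => (hτ k).weak) hq.weak hN.weak he.weak hz.weak (DFun.proj 0) hB.weak
      (fun w => h2 _) (fun w => hqN _) (fun w => hel _) (fun w => hTb _) (fun w => hlin _)
  have hsum := dfun_sumPoly 1 (g := fun i v => dg (q v) (g v) (e v - min (s v) (e v) + i) *
      dg (q v) ((fun y => T y (fun k => τ k v))^[min i (e v)] (z v % q v ^ N v)) (c v))
    hin hse ((DFun.const 8).mul (hN.add (DFun.const 1))) (fun v => by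
      have h3 : lg (N v) + 3 ≤ lg (8 * (N v + 1)) := by
        have h4 : lg (8 * (N v + 1)) = lg (N v + 1) + 3 := by
          unfold lg
          rw [show 8 * (N v + 1) = (N v + 1) * 2 * 2 * 2 by ring,
            Nat.log_mul_base (by norm_num) (by omega), Nat.log_mul_base (by norm_num) (by omega),
            Nat.log_mul_base (by norm_num) (by omega)]
        have h5 : lg (N v) ≤ lg (N v + 1) := Nat.log_mono_right (Nat.le_succ _)
        omega
      have h6 := hel v
      have h7 := min_le_right (s v) (e v)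
      rw [pow_one]
      omega)
  have hfin := h1.add hsum
  refine (congrArg (DFun m) (funext fun v => ?_)).mp hfin
  unfold uH
  congr 1
  refine Finset.sum_congr rfl fun i hi => ?_
  have h8 : min i (e v) = i := by
    have h9 := mem_range.1 hi
    have h10 := min_le_right (s v) (e v)
    exact min_eq_left (by omega)
  rw [h8]

theorem rch_delta (hT : DFun (n + 1) (fun w => T (w 0) (fun i => w i.succ)))
    {τ : Fin n → (Fin m → ℕ) → ℕ} (hτ : ∀ i, DFun m (τ i))
    {q N e x j g U B : (Fin m → ℕ) → ℕ} (hq : DFun m q) (hN : DFun m N) (he : DFun m e)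
    (hx : DFun m x) (hj : DFun m j) (hg : DFun m g) (hU : DFun m U) (hB : DFun m B)
    (h2 : ∀ v, 2 ≤ q v) (hqN : ∀ v, q v ^ N v ≤ B v) (hel : ∀ v, e v ≤ lg (N v) + 3)
    (hTb : ∀ v z, z < q v ^ N v → T z (fun i => τ i v) < q v ^ N v)
    (hlin : ∀ v, ∃ A : Module.End (ZMod (q v)) (Fin (N v) → ZMod (q v)), ∀ z, z < q v ^ N v →
      vecOf (q v) (N v) (T z (fun i => τ i v)) = A (vecOf (q v) (N v) z)) :
    Delta0 m (fun v => RCH (q v) (N v) (e v) (x v) (fun z => T z (fun i => τ i v)) (j v)
      (g v) (U v)) := by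
  have hQ : DFun m (fun v => q v ^ N v) := dfun_powLe hq hN hB hqN
  have hq0 : ∀ v, 0 < q v := fun v => by have := h2 v; omega
  have hu := fun (s c : (Fin (m + 2) → ℕ) → ℕ) (hs : DFun (m + 2) s) (hc : DFun (m + 2) c) =>
    uH_def (m := m + 2) hT (τ := fun k w => τ k fun i => w i.succ.succ)
      (fun k => (hτ k).weak.weak) hq.weak.weak hN.weak.weak he.weak.weak hg.weak.weak
      (z := fun w => w (Fin.succ 0)) (DFun.proj (Fin.succ 0)) hs hc hB.weak.weak
      (fun w => h2 _) (fun w => hqN _) (fun w => hel _) (fun w => hTb _) (fun w => hlin _)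
  have h1 : Delta0 (m + 1) (fun w => ∀ c, c < N (fun i => w i.succ) →
      (uH (q fun i => w i.succ) (e fun i => w i.succ) (fun y => T y (fun k => τ k fun i => w i.succ))
        (g fun i => w i.succ) (w 0 % (q fun i => w i.succ) ^ (N fun i => w i.succ))
        (min (e fun i => w i.succ) (e fun i => w i.succ)) c +
        dg (q fun i => w i.succ) (x fun i => w i.succ) c) % (q fun i => w i.succ) = 0) := by
    refine DltH_ball (m := m + 1) hN.weak (P := fun c w =>
      (uH (q fun i => w i.succ) (e fun i => w i.succ) (fun y => T y (fun k => τ k fun i => w i.succ))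
        (g fun i => w i.succ) (w 0 % (q fun i => w i.succ) ^ (N fun i => w i.succ))
        (min (e fun i => w i.succ) (e fun i => w i.succ)) c +
        dg (q fun i => w i.succ) (x fun i => w i.succ) c) % (q fun i => w i.succ) = 0) ?_
    exact Delta0.eqFun (DFun.modPos ((hu (fun w => e fun i => w i.succ.succ) (fun w => w 0)
      he.weak.weak (DFun.proj 0)).add (dfun_dg hq.weak.weak hx.weak.weak (DFun.proj 0)
      fun w => h2 _)) hq.weak.weak fun w => hq0 _) (DFun.const 0)
  have h3 : Delta0 (m + 1) (fun w => ∀ s, s < e (fun i => w i.succ) →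
      dg (q fun i => w i.succ) (U fun i => w i.succ) ((e fun i => w i.succ) - 1 - s) =
      uH (q fun i => w i.succ) (e fun i => w i.succ) (fun y => T y (fun k => τ k fun i => w i.succ))
        (g fun i => w i.succ) (w 0 % (q fun i => w i.succ) ^ (N fun i => w i.succ))
        (min s (e fun i => w i.succ)) (j fun i => w i.succ) % (q fun i => w i.succ)) := by
    refine DltH_ball (m := m + 1) he.weak (P := fun s w =>
      dg (q fun i => w i.succ) (U fun i => w i.succ) ((e fun i => w i.succ) - 1 - s) =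
      uH (q fun i => w i.succ) (e fun i => w i.succ) (fun y => T y (fun k => τ k fun i => w i.succ))
        (g fun i => w i.succ) (w 0 % (q fun i => w i.succ) ^ (N fun i => w i.succ))
        (min s (e fun i => w i.succ)) (j fun i => w i.succ) % (q fun i => w i.succ)) ?_
    exact Delta0.eqFun (dfun_dg hq.weak.weak hU.weak.weak
      ((he.weak.weak.sub (DFun.const 1)).sub (DFun.proj 0)) fun w => h2 _)
      (DFun.modPos (hu (fun w => w 0) (fun w => j fun i => w i.succ.succ) (DFun.proj 0)
        hj.weak.weak) hq.weak.weak fun w => hq0 _)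
  have h4 := DltH_bex (m := m) hQ (P := fun z v => (∀ c, c < N v →
      (uH (q v) (e v) (fun y => T y (fun k => τ k v)) (g v) (z % q v ^ N v)
        (min (e v) (e v)) c + dg (q v) (x v) c) % q v = 0) ∧ ∀ s, s < e v →
      dg (q v) (U v) (e v - 1 - s) = uH (q v) (e v) (fun y => T y (fun k => τ k v)) (g v)
        (z % q v ^ N v) (min s (e v)) (j v) % q v) (h1.and h3)
  refine h4.of_iff fun v => ?_
  unfold RCH
  refine exists_congr fun z => and_congr_right fun hz => ?_
  rw [Nat.mod_eq_of_lt hz, min_self]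
  refine and_congr_right fun _ => forall_congr' fun s => forall_congr' fun hs => ?_
  rw [min_eq_left hs.le]

end Pool.Agent.H39H
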