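import Pool.Agent.LinU.P7a
import Pool.Agent.H63LB.RelB
import Pool.Agent.H63LB.GB

/-!
# The relation `(y - A) u = x` modulo `g` in closed form (pure)

`u = ∑ u_l y ^ l`, `l < e`, `g = y ^ e + ∑ g_l y ^ l`, `z = u_(e-1)`:
`u_(e-1-s) = A ^ s z + ∑ i < s, g_(e-s+i) A ^ i z`, and `A ^ e z + ∑ i < e, g_i A ^ i z + x = 0`.
-/

set_option autoImplicit false

namespace Pool.Agent.H39H

open Finset Polynomial Pool.Agent.LinU

/-- the digit `c` (not reduced) of `u_(e-1-s)` -/
def uH (q e : ℕ) (T : ℕ → ℕ) (g z s c : ℕ) : ℕ :=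
  dg q (T^[s] z) c + ∑ i ∈ range s, dg q g (e - s + i) * dg q (T^[i] z) c

/-- `U` is the coordinate `j` of a solution `u` of `(y - A) u = x` modulo `g` -/
def RCH (q N e x : ℕ) (T : ℕ → ℕ) (j g U : ℕ) : Prop :=
  ∃ z, z < q ^ N ∧ (∀ c, c < N → (uH q e T g z e c + dg q x c) % q = 0) ∧
    ∀ s, s < e → dg q U (e - 1 - s) = uH q e T g z s j % q

variable {q N e x j g U z : ℕ} {T : ℕ → ℕ}

lemma iter_lt (hTb : ∀ z, z < q ^ N → T z < q ^ N) (hz : z < q ^ N) (s : ℕ) :
    T^[s] z < q ^ N := by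
  induction s with
  | zero => exact hz
  | succ s ih => rw [Function.iterate_succ_apply']; exact hTb _ ih

/-- the vector with the digits `uH` -/
def vH (q N e : ℕ) (T : ℕ → ℕ) (g z s : ℕ) : Fin N → ZMod q :=
  fun c => ((uH q e T g z s c : ℕ) : ZMod q)

lemma vH_zero : vH q N e T g z 0 = vecOf q N z := by
  funext c
  unfold vH uH
  simp only [Function.iterate_zero, id_eq, range_zero, sum_empty, add_zero]
  rfl

lemma vH_eq (s : ℕ) : vH q N e T g z s = vecOf q N (T^[s] z) +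
    ∑ i ∈ range s, ((dg q g (e - s + i) : ℕ) : ZMod q) • vecOf q N (T^[i] z) := by
  funext c
  rw [Pi.add_apply, Finset.sum_apply]
  unfold vH uH
  push_cast
  rfl

lemma vH_succ {A : Matrix (Fin N) (Fin N) (ZMod q)}
    (hA : ∀ z, z < q ^ N → vecOf q N (T z) = A.mulVec (vecOf q N z))
    (hTb : ∀ z, z < q ^ N → T z < q ^ N) (hz : z < q ^ N) {s : ℕ} (hs : s < e) :
    vH q N e T g z (s + 1) = A.mulVec (vH q N e T g z s) +
      ((dg q g (e - 1 - s) : ℕ) : ZMod q) • vecOf q N z := by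
  have hy : ∀ i, vecOf q N (T^[i + 1] z) = A.mulVec (vecOf q N (T^[i] z)) := by
    intro i
    rw [Function.iterate_succ_apply']
    exact hA _ (iter_lt hTb hz i)
  rw [vH_eq, vH_eq, hy, Matrix.mulVec_add, Finset.sum_range_succ', Function.iterate_zero, id_eq,
    ← add_assoc]
  congr 1
  · congr 1
    rw [Matrix.mulVec_sum]
    refine Finset.sum_congr rfl fun i _ => ?_
    rw [Matrix.mulVec_smul, hy, show e - (s + 1) + (i + 1) = e - s + i by omega]
  · rw [show e - (s + 1) + 0 = e - 1 - s by omega]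

theorem sol_of_rch (hq : 2 ≤ q) (he : 1 ≤ e) (hj : j < N) {A : Matrix (Fin N) (Fin N) (ZMod q)}
    (hA : ∀ z, z < q ^ N → vecOf q N (T z) = A.mulVec (vecOf q N z))
    (hTb : ∀ z, z < q ^ N → T z < q ^ N) (h : RCH q N e x T j g U) :
    ∃ u : ℕ → Fin N → ZMod q, SolR.Sol A.mulVecLin (vecOf q N x) e (mu (ZMod q) q e g) u ∧
      ∀ l, l < e → ((dg q U l : ℕ) : ZMod q) = u l ⟨j, hj⟩ := by
  obtain ⟨z, hz, h0, hU⟩ := h
  refine ⟨fun l => vH q N e T g z (e - 1 - l), ?_, ?_⟩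
  · intro l hl
    funext c
    have h1 := congrFun (vH_succ (g := g) hA hTb hz (show e - 1 - l < e by omega)) c
    rw [show e - 1 - (e - 1 - l) = l by omega, Pi.add_apply] at h1
    show (A.mulVec (vH q N e T g z (e - 1 - l))) c =
      (if l = 0 then (0 : Fin N → ZMod q) else vH q N e T g z (e - 1 - (l - 1))) c -
      (mu (ZMod q) q e g).coeff l * vH q N e T g z (e - 1 - (e - 1)) c -
      (if l = 0 then vecOf q N x else 0) c
    rw [A7.mu_coeff, if_pos hl, show e - 1 - (e - 1) = 0 by omega, vH_zero]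
    have h2 : (((dg q g l : ℕ) : ZMod q) • vecOf q N z) c =
      ((dg q g l : ℕ) : ZMod q) * vecOf q N z c := rfl
    rw [h2] at h1
    by_cases hl0 : l = 0
    · subst hl0
      have h3 : vH q N e T g z (e - 1 - 0 + 1) c + vecOf q N x c = 0 := by
        have h4 := h0 c c.2
        rw [show e - 1 - 0 + 1 = e by omega]
        have h5 : (((uH q e T g z e c + dg q x c : ℕ)) : ZMod q) = 0 :=
          (ZMod.natCast_eq_zero_iff _ _).2 (Nat.dvd_of_mod_eq_zero h4)
        rw [Nat.cast_add] at h5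
        exact h5
      rw [if_pos rfl, if_pos rfl, Pi.zero_apply]
      linear_combination -h1 + h3
    · rw [if_neg hl0, if_neg hl0, Pi.zero_apply, show e - 1 - (l - 1) = e - 1 - l + 1 by omega]
      linear_combination -h1
  · intro l hl
    have h1 := hU (e - 1 - l) (by omega)
    rw [show e - 1 - (e - 1 - l) = l by omega] at h1
    rw [h1, ZMod.natCast_mod]
    rfl

theorem rch_of_sol (hq : 2 ≤ q) (he : 1 ≤ e) (hj : j < N) {A : Matrix (Fin N) (Fin N) (ZMod q)}
    (hA : ∀ z, z < q ^ N → vecOf q N (T z) = A.mulVec (vecOf q N z))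
    (hTb : ∀ z, z < q ^ N → T z < q ^ N) {u : ℕ → Fin N → ZMod q}
    (hs : SolR.Sol A.mulVecLin (vecOf q N x) e (mu (ZMod q) q e g) u)
    (hu : ∀ l, l < e → ((dg q U l : ℕ) : ZMod q) = u l ⟨j, hj⟩) :
    RCH q N e x T j g U := by
  obtain ⟨z, hz, hz2⟩ := A7.exists_code hq N (u (e - 1))
  have hz3 : vecOf q N z = u (e - 1) := hz2
  have hS : ∀ l, l < e → ∀ c, (A.mulVec (u l)) c =
      (if l = 0 then (0 : Fin N → ZMod q) else u (l - 1)) c -
      ((dg q g l : ℕ) : ZMod q) * u (e - 1) c - (if l = 0 then vecOf q N x else 0) c := by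
    intro l hl c
    have h1 : (A.mulVec (u l)) c =
      (if l = 0 then (0 : Fin N → ZMod q) else u (l - 1)) c -
      (mu (ZMod q) q e g).coeff l * u (e - 1) c -
      (if l = 0 then vecOf q N x else 0) c := congrFun (hs l hl) c
    rw [A7.mu_coeff, if_pos hl] at h1
    exact h1
  have hv : ∀ s, s < e → vH q N e T g z s = u (e - 1 - s) := by
    intro s
    induction s with
    | zero => intro _; rw [vH_zero, hz3, Nat.sub_zero]
    | succ s ih =>
      intro hs1
      rw [vH_succ (g := g) hA hTb hz (show s < e by omega), ih (by omega)]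
      funext c
      have h1 := hS (e - 1 - s) (by omega) c
      rw [if_neg (show ¬ e - 1 - s = 0 by omega), if_neg (show ¬ e - 1 - s = 0 by omega),
        show e - 1 - s - 1 = e - 1 - (s + 1) by omega, Pi.zero_apply] at h1
      rw [Pi.add_apply, h1, hz3]
      show _ + ((dg q g (e - 1 - s) : ℕ) : ZMod q) * u (e - 1) c = _
      ring
  refine ⟨z, hz, ?_, ?_⟩
  · intro c hc
    have h1 := congrFun (vH_succ (g := g) hA hTb hz (show e - 1 < e by omega)) ⟨c, hc⟩
    rw [hv (e - 1) (by omega), show e - 1 + 1 = e by omega, Pi.add_apply,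
      show e - 1 - (e - 1) = 0 by omega, hS 0 (by omega), if_pos rfl, if_pos rfl, hz3] at h1
    have h2 : (((dg q g 0 : ℕ) : ZMod q) • u (e - 1)) ⟨c, hc⟩ =
      ((dg q g 0 : ℕ) : ZMod q) * u (e - 1) ⟨c, hc⟩ := rfl
    rw [h2, Pi.zero_apply] at h1
    have h3 : (((uH q e T g z e c + dg q x c : ℕ)) : ZMod q) = 0 := by
      rw [Nat.cast_add]
      have h4 : vH q N e T g z e ⟨c, hc⟩ = ((uH q e T g z e c : ℕ) : ZMod q) := rfl
      have h5 : vecOf q N x ⟨c, hc⟩ = ((dg q x c : ℕ) : ZMod q) := rfl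
      rw [← h4, ← h5, h1]
      ring
    exact Nat.mod_eq_zero_of_dvd ((ZMod.natCast_eq_zero_iff _ _).1 h3)
  · intro s hs1
    have h1 := congrFun (hv s hs1) ⟨j, hj⟩
    have h4 : vH q N e T g z s ⟨j, hj⟩ = ((uH q e T g z s j : ℕ) : ZMod q) := rfl
    rw [h4, ← hu (e - 1 - s) (by omega), ZMod.natCast_eq_natCast_iff'] at h1
    rw [h1, Nat.mod_eq_of_lt (dg_lt (by omega) _ _)]

end Pool.Agent.H39H
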